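import Pool.Agent.RTT.Final

/-!
# An NP-complete set relative to an oracle which is adaptively but not non-adaptively
self-reducible
-/

set_option autoImplicit false

namespace Pool.Agent.Results.MP_f8b4c8_lc.AdaptiveNotTruthTable

open Pool.Agent.DSR Pool.Agent.RDS Pool.Agent.RTS Pool.Agent.RTT

/-- There are an oracle `O` and a set `A` which is NP-complete relative to `O` such that `A` is
self-reducible relative to `O` by adaptive questions, but not by non-adaptive questions
(truth-table), and not disjunctively, all in the general sense (the strings asked need not be
shorter; only the chains are polynomially bounded). -/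
theorem result : ∃ (O : Orc) (A : Lang), NPCompleteO O A ∧ GenTuringSelfRed O A ∧
    ¬ GenTTSelfRed O A ∧ ¬ GenSelfRed O A :=
  Pool.Agent.RTT.main

end Pool.Agent.Results.MP_f8b4c8_lc.AdaptiveNotTruthTable
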