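import Pool.Agent.DSR.Final

/-!
# Disjunctive self-reducibility inside one polynomial time isomorphism type
-/

set_option autoImplicit false

namespace Pool.Agent.Results.MP_f8b4c8_lc.IsomorphicCopies

open Pool.Agent.DSR

/-- Let `S` be a paddable NP-complete set (such as SAT). The following are equivalent:
`P = NP`; every set p-isomorphic to `S` is disjunctively self-reducible; every set p-isomorphic to
`S` is self-reducible by adaptive questions shorter than the input; disjunctive self-reducibility
is invariant under p-isomorphism among the sets p-isomorphic to `S`. -/
theorem result (S : Lang) (hS : NPComplete S) (pS : Paddable S) :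
    List.TFAE [∀ L : Lang, InNP L → InP L,
      ∀ A : Lang, PIso A S → SelfRed A,
      ∀ A : Lang, PIso A S → TuringSelfRed A,
      ∀ A B : Lang, PIso A S → PIso B S → SelfRed A → SelfRed B] :=
  main S hS pS

end Pool.Agent.Results.MP_f8b4c8_lc.IsomorphicCopies
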