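import Pool.Agent.RTS.Final

/-!
# NP-complete sets relative to an oracle which are not self-reducible
-/

set_option autoImplicit false

namespace Pool.Agent.Results.MP_f8b4c8_lc.RelativizedGeneral

open Pool.Agent.DSR Pool.Agent.RDS Pool.Agent.RTS

/-- There are an oracle `O` and a set `A` which is NP-complete relative to `O` such that `A` is not
disjunctively self-reducible relative to `O`, even in the general sense (the strings in the list
need not be shorter; only the chains are polynomially bounded), and not even self-reducible by
adaptive questions in this sense. -/
theorem result : ∃ (O : Orc) (A : Lang), NPCompleteO O A ∧ ¬ GenSelfRed O A ∧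
    ¬ GenTuringSelfRed O A :=
  Pool.Agent.RTS.main

end Pool.Agent.Results.MP_f8b4c8_lc.RelativizedGeneral
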